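import Pool.Agent.R759.BSMain

/-!
Problem MP_20b97f_co: circuit covers of graphs with a group of automorphisms which acts
semiregularly with two orbits of vertices, and invariant weightings which are balanced between the
orbits.
-/

set_option autoImplicit false
set_option linter.unusedSectionVars false
open scoped Classical NNReal

namespace Pool.Agent.Results.MP_20b97f_co.BalancedTwoOrbits

open Finset Pool.Agent.R759.CW Pool.Agent.R759.BW Pool.Agent.R759.BS Pool.Agent.R759.OC
open Pool.Agent.TH505.OCDC

/-- The incidence vectors of the circuits of `G`, with entries in `R`. -/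
def circuits (R : Type) [Zero R] [One R] {V : Type} (G : SimpleGraph V) : Set (G.edgeSet → R) :=
  {x | ∃ (v : V) (c : G.Walk v v), c.IsCycle ∧
    ∀ e : G.edgeSet, x e = if (e : Sym2 V) ∈ c.edges then 1 else 0}

section

variable {V : Type} [Fintype V] {G : SimpleGraph V}

lemma dc_cycle {x : V} {c : G.Walk x x} (hc : c.IsCycle) {u v : V} (huv : u ≠ v) :
    dc c u v + dc c v u = if s(u, v) ∈ c.edges then 1 else 0 := by
  rw [dc_add_le_count c huv]
  split_ifs with h
  · exact List.count_eq_one_of_mem hc.isTrail.edges_nodup h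
  · exact List.count_eq_zero.2 h

/-- number of circuits of a list containing an edge -/
noncomputable def cnt (C : List (Σ v : V, G.Walk v v)) (e : Sym2 V) : ℕ :=
  (C.map (fun c => if e ∈ c.2.edges then 1 else 0)).sum

lemma cnt_eq (C : List (Σ v : V, G.Walk v v)) (hC : ∀ c ∈ C, c.2.IsCycle) {u v : V}
    (huv : u ≠ v) : cnt C s(u, v) = tot C u v + tot C v u := by
  induction C with
  | nil => rfl
  | cons c C ih =>
    rw [tot_cons, tot_cons]
    have h1 := ih (fun d hd => hC d (List.mem_cons_of_mem _ hd))
    have h2 := dc_cycle (hC c List.mem_cons_self) huv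
    have h3 : cnt (c :: C) s(u, v) = (if s(u, v) ∈ c.2.edges then 1 else 0) + cnt C s(u, v) := by
      unfold cnt
      rw [List.map_cons, List.sum_cons]
    rw [h3, h1, ← h2]
    omega

lemma cnt_mem (C : List (Σ v : V, G.Walk v v)) (hC : ∀ c ∈ C, c.2.IsCycle) :
    (fun e : G.edgeSet => cnt C e) ∈ Submodule.span ℕ (circuits ℕ G) := by
  induction C with
  | nil =>
    have : (fun e : G.edgeSet => cnt ([] : List (Σ v : V, G.Walk v v)) e) = 0 := rfl
    rw [this]
    exact Submodule.zero_mem _
  | cons c C ih =>
    have h1 := ih (fun d hd => hC d (List.mem_cons_of_mem _ hd))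
    have h2 : (fun e : G.edgeSet => if (e : Sym2 V) ∈ c.2.edges then (1 : ℕ) else 0) ∈
        Submodule.span ℕ (circuits ℕ G) :=
      Submodule.subset_span ⟨c.1, c.2, hC c List.mem_cons_self, fun _ => rfl⟩
    have h3 := Submodule.add_mem _ h2 h1
    exact h3

/-- degree of a weighting at a vertex -/
noncomputable def deg {R : Type} [AddCommMonoid R] (x : G.edgeSet → R) (v : V) : R :=
  ∑ t, if h : G.Adj v t then x ⟨s(v, t), h⟩ else 0

lemma deg_add {R : Type} [AddCommMonoid R] (x y : G.edgeSet → R) (v : V) :
    deg (x + y) v = deg x v + deg y v := by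
  unfold deg
  rw [← Finset.sum_add_distrib]
  refine Finset.sum_congr rfl fun t _ => ?_
  split_ifs with h
  · rfl
  · rw [add_zero]

lemma deg_zero {R : Type} [AddCommMonoid R] (v : V) : deg (0 : G.edgeSet → R) v = 0 := by
  unfold deg
  refine Finset.sum_eq_zero fun t _ => ?_
  split_ifs with h
  · rfl
  · rfl

lemma deg_circuit (R : Type) [Semiring R] {x : G.edgeSet → R} {y : V} {c : G.Walk y y}
    (hc : c.IsCycle) (hx : ∀ e : G.edgeSet, x e = if (e : Sym2 V) ∈ c.edges then 1 else 0)
    (v : V) : deg x v = ((2 * ∑ t, dc c v t : ℕ) : R) := by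
  have h1 : deg x v = ∑ t, ((dc c v t + dc c t v : ℕ) : R) := by
    unfold deg
    refine Finset.sum_congr rfl fun t _ => ?_
    split_ifs with h
    · rw [hx, dc_cycle hc h.ne]
      split_ifs <;> simp
    · have h2 : dc c v t = 0 := by
        by_contra h3
        exact h (dc_adj c (Nat.pos_of_ne_zero h3))
      have h3 : dc c t v = 0 := by
        by_contra h3
        exact h (dc_adj c (Nat.pos_of_ne_zero h3)).symm
      rw [h2, h3]
      simp
  rw [h1, ← Nat.cast_sum, Finset.sum_add_distrib, ← dc_closed c v]
  congr 1
  ring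

lemma nat_to_real {x : G.edgeSet → ℕ} (h : x ∈ Submodule.span ℕ (circuits ℕ G)) :
    (fun e : G.edgeSet => (x e : ℝ)) ∈ Submodule.span ℝ≥0 (circuits ℝ G) := by
  induction h using Submodule.span_induction with
  | mem x hx =>
    obtain ⟨v, c, hc, h⟩ := hx
    refine Submodule.subset_span ⟨v, c, hc, fun e => ?_⟩
    show ((x e : ℕ) : ℝ) = _
    rw [h]
    split_ifs <;> simp
  | zero =>
    have : (fun e : G.edgeSet => (((0 : G.edgeSet → ℕ) e : ℕ) : ℝ)) = 0 := by
      funext e
      simp
    rw [this]
    exact Submodule.zero_mem _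
  | add x y _ _ hx hy =>
    have : (fun e : G.edgeSet => (((x + y) e : ℕ) : ℝ)) =
        (fun e => (x e : ℝ)) + (fun e => (y e : ℝ)) := by
      funext e
      simp
    rw [this]
    exact Submodule.add_mem _ hx hy
  | smul n x _ hx =>
    have : (fun e : G.edgeSet => (((n • x) e : ℕ) : ℝ)) = (n : ℝ≥0) • (fun e => (x e : ℝ)) := by
      funext e
      simp [NNReal.smul_def]
    rw [this]
    exact Submodule.smul_mem _ _ hx

lemma nat_to_int {x : G.edgeSet → ℕ} (h : x ∈ Submodule.span ℕ (circuits ℕ G)) :
    (fun e : G.edgeSet => (x e : ℤ)) ∈ Submodule.span ℤ (circuits ℤ G) := by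
  induction h using Submodule.span_induction with
  | mem x hx =>
    obtain ⟨v, c, hc, h⟩ := hx
    refine Submodule.subset_span ⟨v, c, hc, fun e => ?_⟩
    show ((x e : ℕ) : ℤ) = _
    rw [h]
    split_ifs <;> simp
  | zero =>
    have : (fun e : G.edgeSet => (((0 : G.edgeSet → ℕ) e : ℕ) : ℤ)) = 0 := by
      funext e
      simp
    rw [this]
    exact Submodule.zero_mem _
  | add x y _ _ hx hy =>
    have : (fun e : G.edgeSet => (((x + y) e : ℕ) : ℤ)) =
        (fun e => (x e : ℤ)) + (fun e => (y e : ℤ)) := by
      funext e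
      simp
    rw [this]
    exact Submodule.add_mem _ hx hy
  | smul n x _ hx =>
    have : (fun e : G.edgeSet => (((n • x) e : ℕ) : ℤ)) = (n : ℤ) • (fun e => (x e : ℤ)) := by
      funext e
      simp
    rw [this]
    exact Submodule.smul_mem _ _ hx

lemma int_even {x : G.edgeSet → ℤ} (h : x ∈ Submodule.span ℤ (circuits ℤ G)) (v : V) :
    Even (deg x v) := by
  induction h using Submodule.span_induction with
  | mem x hx =>
    obtain ⟨y, c, hc, h⟩ := hx
    rw [deg_circuit ℤ hc h v]
    push_cast
    exact even_two_mul _
  | zero =>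
    rw [deg_zero]
    exact Even.zero
  | add x y _ _ hx hy =>
    rw [deg_add]
    exact hx.add hy
  | smul n x _ hx =>
    have : deg (n • x) v = n * deg x v := by
      unfold deg
      rw [Finset.mul_sum]
      refine Finset.sum_congr rfl fun t _ => ?_
      split_ifs with h
      · rfl
      · rw [mul_zero]
    rw [this]
    exact hx.mul_left n

lemma real_star {x : G.edgeSet → ℝ} (h : x ∈ Submodule.span ℝ≥0 (circuits ℝ G)) {v s : V}
    (hvs : G.Adj v s) : 2 * x ⟨s(v, s), hvs⟩ ≤ deg x v := by
  induction h using Submodule.span_induction with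
  | mem x hx =>
    obtain ⟨y, c, hc, h⟩ := hx
    rw [deg_circuit ℝ hc h v, h]
    have h1 : dc c v s + dc c s v = if s(v, s) ∈ c.edges then 1 else 0 := dc_cycle hc hvs.ne
    have h2 : dc c v s ≤ ∑ t, dc c v t :=
      Finset.single_le_sum (f := fun t => dc c v t) (fun _ _ => Nat.zero_le _) (mem_univ s)
    have h3 : dc c s v ≤ ∑ t, dc c t v :=
      Finset.single_le_sum (f := fun t => dc c t v) (fun _ _ => Nat.zero_le _) (mem_univ s)
    rw [← dc_closed c v] at h3
    have h4 : 2 * (if s(v, s) ∈ c.edges then 1 else 0) ≤ 2 * ∑ t, dc c v t := by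
      split_ifs at h1 ⊢
      · omega
      · omega
    have h5 : ((2 * (if s(v, s) ∈ c.edges then 1 else 0) : ℕ) : ℝ) ≤
        ((2 * ∑ t, dc c v t : ℕ) : ℝ) := by exact_mod_cast h4
    refine le_trans (le_of_eq ?_) h5
    push_cast
    rfl
  | zero =>
    rw [deg_zero]
    simp
  | add x y _ _ hx hy =>
    rw [deg_add]
    have : (x + y) ⟨s(v, s), hvs⟩ = x ⟨s(v, s), hvs⟩ + y ⟨s(v, s), hvs⟩ := rfl
    rw [this]
    linarith
  | smul a x _ hx =>
    have h1 : deg (a • x) v = (a : ℝ) * deg x v := by
      unfold deg
      rw [Finset.mul_sum]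
      refine Finset.sum_congr rfl fun t _ => ?_
      split_ifs with h
      · rfl
      · rw [mul_zero]
    have h2 : (a • x) ⟨s(v, s), hvs⟩ = (a : ℝ) * x ⟨s(v, s), hvs⟩ := rfl
    rw [h1, h2]
    have := mul_le_mul_of_nonneg_left hx (NNReal.coe_nonneg a)
    linarith

lemma deg_weight {R : Type} [AddCommMonoid R] (p : Sym2 V → R) (v : V) :
    deg (fun e : G.edgeSet => p e) v = ∑ t with G.Adj v t, p s(v, t) := by
  unfold deg
  rw [Finset.sum_filter]
  refine Finset.sum_congr rfl fun t _ => ?_
  split_ifs <;> rfl

end

lemma sum_split {Γ : Type} [Fintype Γ] (G : SimpleGraph (Γ × Bool)) (f : Γ × Bool → ℕ)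
    (v : Γ × Bool) : ∑ t with G.Adj v t, f t =
      ∑ x, (if G.Adj v (x, false) then f (x, false) else 0) +
      ∑ x, (if G.Adj v (x, true) then f (x, true) else 0) := by
  rw [Finset.sum_filter, Fintype.sum_prod_type, ← Finset.sum_add_distrib]
  refine Finset.sum_congr rfl fun x _ => ?_
  rw [Fintype.sum_bool, add_comm]

/-- A graph `G` on `Γ × {0, 1}` (here `false` stands for `0` and `true` for `1`) which is invariant
under the left translations by the elements of the group `Γ`, with a weighting `p` of the edges
which is invariant under the translations, such that no edge between `Γ × {0}` and `Γ × {1}` is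
heavier than all other such edges at its end in `Γ × {0}` together. Then `p` is a sum of circuits if
and only if it lies in the cone and in the lattice of the circuits, if and only if for every vertex
the sum of the weights is even and no edge is heavier than all other edges together. -/
theorem result (Γ : Type) [Group Γ] [Fintype Γ] (G : SimpleGraph (Γ × Bool))
    (hG : ∀ (g x y : Γ) (i j : Bool), G.Adj (x, i) (y, j) → G.Adj (g * x, i) (g * y, j))
    (p : Sym2 (Γ × Bool) → ℕ)
    (hp : ∀ (g x y : Γ) (i j : Bool), G.Adj (x, i) (y, j) →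
      p s((g * x, i), (g * y, j)) = p s((x, i), (y, j)))
    (hbal : ∀ x y : Γ, G.Adj (x, false) (y, true) → 2 * p s((x, false), (y, true)) ≤
      ∑ t with G.Adj (x, false) (t, true), p s((x, false), (t, true))) :
    [(fun e : G.edgeSet => p e) ∈ Submodule.span ℕ (circuits ℕ G),
      (fun e : G.edgeSet => (p e : ℝ)) ∈ Submodule.span ℝ≥0 (circuits ℝ G) ∧
        (fun e : G.edgeSet => (p e : ℤ)) ∈ Submodule.span ℤ (circuits ℤ G),
      ∀ v, Even (∑ t with G.Adj v t, p s(v, t)) ∧
        ∀ w, G.Adj v w → 2 * p s(v, w) ≤ ∑ t with G.Adj v t, p s(v, t)].TFAE := by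
  tfae_have 1 → 2 := fun h => ⟨nat_to_real h, nat_to_int h⟩
  tfae_have 2 → 3 := by
    rintro ⟨h1, h2⟩ v
    constructor
    · have h3 := int_even h2 v
      have h4 := deg_weight (G := G) (fun e => (p e : ℤ)) v
      rw [h4, ← Nat.cast_sum] at h3
      exact_mod_cast h3
    · intro s hs
      have h3 := real_star h1 hs
      have h4 := deg_weight (G := G) (fun e => (p e : ℝ)) v
      rw [h4, ← Nat.cast_sum] at h3
      exact_mod_cast h3
  tfae_have 3 → 1 := by
    intro h
    let σ : Γ → ℕ := fun s => if G.Adj (1, false) (s, true) then p s((1, false), (s, true)) else 0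
    let α : Γ → ℕ := fun s => if G.Adj (1, false) (s, false) then p s((1, false), (s, false)) else 0
    let β : Γ → ℕ := fun s => if G.Adj (1, true) (s, true) then p s((1, true), (s, true)) else 0
    have gen : ∀ (i j : Bool) (s : Γ), G.Adj (1, i) (s, j) → ∀ x, G.Adj (x, i) (x * s, j) := by
      intro i j s hs x
      have := hG x 1 s i j hs
      rwa [mul_one] at this
    have inv : ∀ (i : Bool) (s : Γ), G.Adj (1, i) (s, i) → G.Adj (1, i) (s⁻¹, i) := by
      intro i s hs
      have := hG s⁻¹ 1 s i i hs
      rw [mul_one, inv_mul_cancel] at this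
      exact this.symm
    have invp : ∀ (i : Bool) (s : Γ), G.Adj (1, i) (s, i) →
        p s((1, i), (s⁻¹, i)) = p s((1, i), (s, i)) := by
      intro i s hs
      have := hp s 1 s⁻¹ i i (inv i s hs)
      rw [mul_one, mul_inv_cancel] at this
      rw [← this, Sym2.eq_swap]
    have hα : ∀ a, α a⁻¹ = α a := by
      intro a
      by_cases ha : G.Adj (1, false) (a, false)
      · show (if _ then _ else _) = (if _ then _ else _)
        rw [if_pos ha, if_pos (inv false a ha), invp false a ha]
      · have ha' : ¬ G.Adj (1, false) (a⁻¹, false) := fun h => ha (by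
          have := inv false a⁻¹ h
          rwa [inv_inv] at this)
        show (if _ then _ else _) = (if _ then _ else _)
        rw [if_neg ha, if_neg ha']
    have hβ : ∀ a, β a⁻¹ = β a := by
      intro a
      by_cases ha : G.Adj (1, true) (a, true)
      · show (if _ then _ else _) = (if _ then _ else _)
        rw [if_pos ha, if_pos (inv true a ha), invp true a ha]
      · have ha' : ¬ G.Adj (1, true) (a⁻¹, true) := fun h => ha (by
          have := inv true a⁻¹ h
          rwa [inv_inv] at this)
        show (if _ then _ else _) = (if _ then _ else _)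
        rw [if_neg ha, if_neg ha']
    have nσ : ∀ s, σ s ≠ 0 → G.Adj (1, false) (s, true) := by
      intro s hs
      by_contra h
      exact hs (if_neg h)
    have nα : ∀ s, α s ≠ 0 → G.Adj (1, false) (s, false) := by
      intro s hs
      by_contra h
      exact hs (if_neg h)
    have nβ : ∀ s, β s ≠ 0 → G.Adj (1, true) (s, true) := by
      intro s hs
      by_contra h
      exact hs (if_neg h)
    have d0 : ∑ t with G.Adj (1, false) t, p s((1, false), t) = ∑ s, σ s + ∑ s, α s := by
      rw [sum_split G (fun t => p s((1, false), t)) (1, false), add_comm]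
    have back : ∀ s, (if G.Adj (1, true) (s, false) then p s((1, true), (s, false)) else 0) =
        σ s⁻¹ := by
      intro s
      by_cases hs : G.Adj (1, true) (s, false)
      · have h1 : G.Adj (1, false) (s⁻¹, true) := by
          have := hG s⁻¹ 1 s true false hs
          rw [mul_one, inv_mul_cancel] at this
          exact this.symm
        have h2 := hp s 1 s⁻¹ false true h1
        rw [mul_one, mul_inv_cancel] at h2
        show _ = (if _ then _ else _)
        rw [if_pos hs, if_pos h1, ← h2, Sym2.eq_swap]
      · have h1 : ¬ G.Adj (1, false) (s⁻¹, true) := by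
          intro h
          apply hs
          have := hG s 1 s⁻¹ false true h
          rw [mul_one, mul_inv_cancel] at this
          exact this.symm
        show _ = (if _ then _ else _)
        rw [if_neg hs, if_neg h1]
    have d1 : ∑ t with G.Adj (1, true) t, p s((1, true), t) = ∑ s, σ s + ∑ s, β s := by
      rw [sum_split G (fun t => p s((1, true), t)) (1, true)]
      congr 1
      rw [Finset.sum_congr rfl (fun s _ => back s)]
      exact Equiv.sum_comp (Equiv.inv Γ) σ
    have hcov := cover3 (G := G) (∑ s, σ s) σ α β rfl hα hβ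
      (fun s hs => gen _ _ s (nσ s hs)) (fun s hs => gen _ _ s (nα s hs))
      (fun s hs => gen _ _ s (nβ s hs)) ?_ ?_ ?_ ?_ ?_
    · obtain ⟨C, hC, hC'⟩ := hcov
      have h3 := cnt_mem C hC
      have h4 : (fun e : G.edgeSet => cnt C e) = fun e : G.edgeSet => p e := by
        funext e
        obtain ⟨e, he⟩ := e
        induction e using Sym2.ind with
        | _ u v =>
        have he' : G.Adj u v := he
        show cnt C s(u, v) = p s(u, v)
        rw [cnt_eq C hC he'.ne, hC' u v]
        have tr : ∀ (x y : Γ) (i j : Bool), G.Adj (x, i) (y, j) →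
            G.Adj (1, i) (x⁻¹ * y, j) ∧ p s((x, i), (y, j)) = p s((1, i), (x⁻¹ * y, j)) := by
          intro x y i j hxy
          have h1 := hG x⁻¹ x y i j hxy
          rw [inv_mul_cancel] at h1
          have h2 := hp x⁻¹ x y i j hxy
          rw [inv_mul_cancel] at h2
          exact ⟨h1, h2.symm⟩
        obtain ⟨x, _ | _⟩ := u
        · obtain ⟨y, _ | _⟩ := v
          · obtain ⟨h5, h6⟩ := tr x y _ _ he'
            rw [h6]
            exact if_pos h5
          · obtain ⟨h5, h6⟩ := tr x y _ _ he'
            rw [h6]
            exact if_pos h5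
        · obtain ⟨y, _ | _⟩ := v
          · obtain ⟨h5, h6⟩ := tr y x _ _ he'.symm
            rw [Sym2.eq_swap, h6]
            exact if_pos h5
          · obtain ⟨h5, h6⟩ := tr x y _ _ he'
            rw [h6]
            exact if_pos h5
      rw [← h4]
      exact h3
    · rw [← d0]
      exact (h (1, false)).1
    · rw [← d1]
      exact (h (1, true)).1
    · intro s
      by_cases hs : G.Adj (1, false) (s, true)
      · have e1 : σ s = p s((1, false), (s, true)) := if_pos hs
        rw [e1]
        have h5 := hbal 1 s hs
        rw [Finset.sum_filter] at h5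
        exact h5
      · have : σ s = 0 := if_neg hs
        rw [this]
        exact Nat.zero_le _
    · intro c _
      rw [← d0]
      by_cases hs : G.Adj (1, false) (c, false)
      · have : α c = p s((1, false), (c, false)) := if_pos hs
        rw [this]
        exact (h (1, false)).2 _ hs
      · have : α c = 0 := if_neg hs
        rw [this]
        exact Nat.zero_le _
    · intro c _
      rw [← d1]
      by_cases hs : G.Adj (1, true) (c, true)
      · have : β c = p s((1, true), (c, true)) := if_pos hs
        rw [this]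
        exact (h (1, true)).2 _ hs
      · have : β c = 0 := if_neg hs
        rw [this]
        exact Nat.zero_le _
  tfae_finish

end Pool.Agent.Results.MP_20b97f_co.BalancedTwoOrbits
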