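import Pool.Agent.R769.MN.PetG

/-!
# Circuit covers with constant weight two: matching number at most eight

Let `G` be a finite graph without cut-edge in which every matching has at most eight edges (with
arbitrary order, degrees and small cuts).  Then there are five even subgraphs of `G` such that every
edge is in exactly two of them, and the weighting with constant value two has a circuit cover.

The graph has a cycle-continuous map to the Petersen graph (MP_03045a_co.MatchingNumberEight); the
five even subgraphs are the preimages of those of a five cycle double cover of the Petersen graph,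
and each of them is a disjoint union of circuits.
-/

set_option autoImplicit false

open Finset

namespace Pool.Agent.Results.MP_20b97f_co.MatchingNumberEight

open Pool.Agent.H160R2.CC Pool.Agent.H160R2.CC.MGraph

/-- `M` is a matching: its edges are not loops and no two of them have a common end. -/
def IsMatching (G : MGraph) (M : Finset G.E) : Prop :=
  (∀ e ∈ M, G.src e ≠ G.tgt e) ∧ ∀ e ∈ M, ∀ e' ∈ M, e ≠ e' →
    G.src e ≠ G.src e' ∧ G.src e ≠ G.tgt e' ∧ G.tgt e ≠ G.src e' ∧ G.tgt e ≠ G.tgt e'

/-- `C` is a circuit: a minimal nonempty set of edges with all degrees even. -/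
def IsCircuit (G : MGraph) (C : Finset G.E) : Prop :=
  C.Nonempty ∧ G.IsCycle C ∧ ∀ D ⊆ C, D.Nonempty → G.IsCycle D → D = C

/-- The weighted graph `(G, p)` has a circuit cover: a multiset of circuits in which every edge `e`
lies in exactly `p e` members. -/
def HasCircuitCover (G : MGraph) (p : G.E → ℕ) : Prop :=
  ∃ F : Multiset (Finset G.E), (∀ C ∈ F, IsCircuit G C) ∧
    ∀ e, Multiset.countP (fun C => e ∈ C) F = p e

/-- five even subgraphs of the Petersen graph -/
def T : Fin 5 → Finset (Fin 15) :=
  ![{0, 1, 2, 3, 4}, {0, 2, 5, 6, 7, 8, 10, 11}, {3, 8, 9, 10, 12, 13}, {1, 6, 7, 12, 14},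
    {4, 5, 9, 11, 13, 14}]

theorem T_cycle : ∀ i, petersen.IsCycle (T i) := by
  intro i v
  unfold MGraph.deg
  revert i v
  show ∀ (i : Fin 5) (v : Fin 10), Even
    (((T i).filter (fun e => (![0, 1, 2, 3, 4, 0, 1, 2, 3, 4, 5, 6, 7, 8, 9] : Fin 15 → Fin 10) e =
      v)).card + ((T i).filter (fun e =>
      (![1, 2, 3, 4, 0, 5, 6, 7, 8, 9, 7, 8, 9, 5, 6] : Fin 15 → Fin 10) e = v)).card)
  decide +kernel

theorem T_two : ∀ e : Fin 15, (univ.filter (fun i : Fin 5 => e ∈ T i)).card = 2 := by
  decide +kernel

theorem cyc_sdiff {G : MGraph} {C D : Finset G.E} (h : C ⊆ D) (hC : G.IsCycle C)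
    (hD : G.IsCycle D) : G.IsCycle (D \ C) := by
  intro v
  have h1 : G.deg (D \ C) v + G.deg C v = G.deg D v := by
    unfold MGraph.deg
    have e1 : ∀ q : G.E → Prop, ∀ [DecidablePred q],
        ((D \ C).filter q).card + (C.filter q).card = (D.filter q).card := by
      intro q _
      rw [← card_union_of_disjoint, ← filter_union, sdiff_union_of_subset h]
      exact disjoint_filter_filter sdiff_disjoint
    have a := e1 (fun e => G.src e = v)
    have b := e1 (fun e => G.tgt e = v)
    omega
  have h2 := hC v
  have h3 := hD v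
  rw [← h1] at h3
  exact (Nat.even_add.mp h3).mpr h2

/-- an even subgraph is the disjoint union of circuits -/
theorem decomp {G : MGraph} (n : ℕ) : ∀ D : Finset G.E, D.card = n → G.IsCycle D →
    ∃ F : Multiset (Finset G.E), (∀ C ∈ F, IsCircuit G C) ∧
      ∀ e, Multiset.countP (fun C => e ∈ C) F = if e ∈ D then 1 else 0 := by
  classical
  induction n using Nat.strong_induction_on with
  | _ n ih =>
    intro D hn hD
    by_cases h0 : D.Nonempty
    · have hex : ((D.powerset).filter (fun C => C.Nonempty ∧ G.IsCycle C)).Nonempty :=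
        ⟨D, mem_filter.mpr ⟨mem_powerset_self D, h0, hD⟩⟩
      obtain ⟨C, hC, hmin⟩ := exists_min_image _ (fun C : Finset G.E => C.card) hex
      rw [mem_filter, mem_powerset] at hC
      obtain ⟨hCD, hne, hcyc⟩ := hC
      have hcirc : IsCircuit G C := by
        refine ⟨hne, hcyc, fun B hB hBn hBc => ?_⟩
        have h1 := hmin B (mem_filter.mpr ⟨mem_powerset.mpr (hB.trans hCD), hBn, hBc⟩)
        exact eq_of_subset_of_card_le hB h1
      have hcard : (D \ C).card + C.card = D.card := card_sdiff_add_card_eq_card hCD
      have hpos : 0 < C.card := card_pos.mpr hne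
      obtain ⟨F, f1, f2⟩ := ih (D \ C).card (by omega) (D \ C) rfl (cyc_sdiff hCD hcyc hD)
      refine ⟨C ::ₘ F, ?_, ?_⟩
      · intro B hB
        rcases Multiset.mem_cons.mp hB with h | h
        · rw [h]; exact hcirc
        · exact f1 B h
      · intro e
        rw [Multiset.countP_cons, f2 e]
        by_cases heC : e ∈ C
        · have heD : e ∈ D := hCD heC
          simp [heC, heD]
        · by_cases heD : e ∈ D
          · simp [heC, heD]
          · simp [heC, heD]
    · rw [not_nonempty_iff_eq_empty] at h0
      subst h0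
      exact ⟨0, by simp, by simp⟩

/-- Let `G` be a finite graph without cut-edge (loops and parallel edges allowed) in which every
matching has at most eight edges. Then there are five even subgraphs of `G` such that every edge is
in exactly two of them, and the constant weighting two has a circuit cover. -/
theorem result (G : MGraph) (hB : ¬ G.HasCutEdge)
    (hM : ∀ M : Finset G.E, IsMatching G M → M.card ≤ 8) :
    (∃ D : Fin 5 → Finset G.E, (∀ i, G.IsCycle (D i)) ∧
      ∀ e, (univ.filter (fun i => e ∈ D i)).card = 2) ∧
    HasCircuitCover G (fun _ => 2) := by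
  classical
  obtain ⟨f, hD⟩ : ∃ f : G.E → Fin 15, ∀ i : Fin 5,
      G.IsCycle (univ.filter (fun e => f e ∈ T i)) := by
    obtain ⟨f, hf⟩ := Pool.Agent.R769.MN.succ_match G hB hM
    refine ⟨f, fun i => ?_⟩
    have h := hf (T i) (T_cycle i)
    intro v
    refine Eq.mp ?_ (h v)
    congr 2
  have h2 : ∀ e, (univ.filter (fun i : Fin 5 =>
      e ∈ (univ.filter (fun e => f e ∈ T i) : Finset G.E))).card = 2 := by
    intro e
    rw [← T_two (f e)]
    congr 1
    ext i
    simp only [mem_filter, mem_univ, true_and]
  refine ⟨⟨fun i => univ.filter (fun e => f e ∈ T i), hD, h2⟩, ?_⟩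
  choose F f1 f2 using fun i : Fin 5 => decomp _ (univ.filter (fun e => f e ∈ T i)) rfl (hD i)
  refine ⟨∑ i, F i, fun C hC => ?_, fun e => ?_⟩
  · obtain ⟨i, -, hi⟩ := Multiset.mem_sum.mp hC
    exact f1 i C hi
  · have h3 : Multiset.countP (fun C => e ∈ C) (∑ i, F i) =
        ∑ i, Multiset.countP (fun C => e ∈ C) (F i) :=
      map_sum (Multiset.countPAddMonoidHom (fun C : Finset G.E => e ∈ C)) F univ
    rw [h3, Finset.sum_congr rfl (fun i _ => f2 i e), ← Finset.card_filter]
    exact h2 e

end Pool.Agent.Results.MP_20b97f_co.MatchingNumberEight
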